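import Pool.Agent.helper57.PP.Spec

/-!
# Row pp:GEO
-/

set_option autoImplicit false

namespace Pool.Agent.helper57.PP

open Finset

theorem GEO_edge {W : Type} [DecidableEq W] {G : Finset (Finset W)} {σ : W → W} (hD : Dbl G σ)
    {x y : W} (h : ({x, y} : Finset W) ∈ edges G) : ({σ x, σ y} : Finset W) ∈ edges G := by
  have hne := edges_ne h
  have hinj : Function.Injective σ := Function.Involutive.injective hD.invol
  rw [mem_edges] at h ⊢
  obtain ⟨-, t, ht, h1⟩ := h
  refine ⟨card_pair fun hc => hne (hinj hc), t.image σ, hD.inv t ht, ?_⟩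
  intro z hz
  rw [mem_insert, mem_singleton] at hz
  rw [mem_image]
  rcases hz with rfl | rfl
  · exact ⟨x, h1 (by simp), rfl⟩
  · exact ⟨y, h1 (by simp), rfl⟩

theorem GEO_iter {W : Type} [DecidableEq W] {G : Finset (Finset W)} {σ : W → W} (hD : Dbl G σ)
    {x y : W} (h : ({x, y} : Finset W) ∈ edges G) (a : ℕ) :
    ({σ^[a] x, σ^[a] y} : Finset W) ∈ edges G := by
  induction a with
  | zero => exact h
  | succ a ih =>
    rw [Function.iterate_succ_apply', Function.iterate_succ_apply']
    exact GEO_edge hD ih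

theorem GEO : GEO_stmt := by
  classical
  intro W _ G σ hD
  have hex : ∃ l : ℕ, ∃ q : ℕ → W, (∀ i < l, ({q i, q (i + 1)} : Finset W) ∈ edges G) ∧
      q l = σ (q 0) := by
    obtain ⟨x⟩ := hD.conn.nonempty
    obtain ⟨w⟩ := hD.conn.preconnected x (σ x)
    refine ⟨w.length, w.getVert, ?_, ?_⟩
    · intro i hi
      exact (w.adj_getVert_succ hi).2
    · rw [w.getVert_length, w.getVert_zero]
  obtain ⟨q, hq1, hq2⟩ := Nat.find_spec hex
  set m := Nat.find hex with hm
  have m3 : 3 ≤ m := by
    by_contra hc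
    have : m = 0 ∨ m = 1 ∨ m = 2 := by omega
    rcases this with h | h | h
    · rw [h] at hq2
      exact hD.fix (q 0) hq2.symm
    · rw [h] at hq1 hq2
      have h1 := hq1 0 (by norm_num)
      rw [zero_add, hq2] at h1
      exact hD.far1 _ h1
    · rw [h] at hq1 hq2
      have h1 := hq1 0 (by norm_num)
      have h2 := hq1 1 (by norm_num)
      rw [zero_add] at h1
      rw [one_add_one_eq_two, hq2] at h2
      exact hD.far2 _ _ h1 (edges_comm h2)
  have hmpos : 0 < m := by omega
  refine ⟨m, fun i => σ^[i / m] (q (i % m)), ⟨m3, ?_, ?_, ?_⟩⟩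
  · intro i
    show σ^[(i + m) / m] (q ((i + m) % m)) = σ (σ^[i / m] (q (i % m)))
    rw [Nat.add_div_right _ hmpos, Nat.add_mod_right, Function.iterate_succ_apply']
  · intro i
    show ({σ^[i / m] (q (i % m)), σ^[(i + 1) / m] (q ((i + 1) % m))} : Finset W) ∈ edges G
    have hr : i % m < m := Nat.mod_lt _ hmpos
    have hdm : m * (i / m) + i % m = i := Nat.div_add_mod i m
    by_cases hlt : i % m + 1 < m
    · have h1 : (i + 1) / m = i / m := by
        rw [Nat.div_eq_of_lt_le]
        · rw [mul_comm]; omega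
        · rw [Nat.succ_mul, mul_comm]; omega
      have h2 : (i + 1) % m = i % m + 1 := by
        have := Nat.div_add_mod (i + 1) m
        rw [h1] at this
        omega
      rw [h1, h2]
      exact GEO_iter hD (hq1 _ hr) _
    · have h0 : i % m + 1 = m := by omega
      have h3 : i + 1 = m * (i / m + 1) := by rw [Nat.mul_succ]; omega
      have h1 : (i + 1) / m = i / m + 1 := by
        rw [h3, Nat.mul_div_cancel_left _ hmpos]
      have h2 : (i + 1) % m = 0 := by
        rw [h3, Nat.mul_mod_right]
      rw [h1, h2, Function.iterate_succ_apply, ← hq2]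
      have h4 := GEO_iter hD (hq1 _ hr) (i / m)
      rw [h0] at h4
      exact h4
  · intro q' l hq' hql
    exact Nat.find_min' hex ⟨q', hq', hql⟩

end Pool.Agent.helper57.PP
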